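import Pool.Agent.TH710.NR.Rig
import Pool.Agent.TH710.NU.Affine
import Pool.Agent.TH710.ND.Proj
import Pool.Agent.W602.RG.Lnw
import Pool.Agent.W273.RG.FNW

/-!
Pointed maps from curves to projective varieties given by nested sums of few high powers of linear
forms.
-/

set_option autoImplicit false

open FF MvPolynomial Pool.Agent.TH710.ND Pool.Agent.W602.RG Pool.Agent.W603.LV
  Pool.Agent.W603.PV Pool.Agent.W603.GX Pool.Agent.W603.GW Pool.Agent.W603.GY
  Pool.Agent.TH710.NU
open Pool.Agent.W602.GT (lin val IsForm val_smul val_mul VarPts SubVar IsComponent GeneralType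
  LogGeneralType DerReg DerLog RegAt LogAt Cone)
open scoped LinearAlgebra.Projectivization

namespace Pool.Agent.TH710.NR

variable {k : Type} [Field k] {n : ℕ} {ι : Type}

theorem log_of_general {K : Type} [Field K] [Algebra k K] {w : ℕ} (h : GeneralType k K w)
    (Bd : Place k K → Prop) : LogGeneralType k K w Bd := by
  obtain ⟨h1, N, hN, ω, h2, h3, h4⟩ := h
  refine ⟨h1, N, hN, ω, h2, fun P hP j D hD => h3 P hP j D fun i f hf => ?_,
    fun P hP _ => h3 P hP, h4⟩
  by_cases h0 : f = 0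
  · rw [h0, map_zero]
    exact P.reg_zero
  · have h5 : (D i) f = (D i) f / f * f := (div_mul_cancel₀ _ h0).symm
    rw [h5]
    exact P.reg_mul (hD i f) hf

/-- a nested sum involves only finitely many linear forms -/
theorem tower_leaves {G : MvPolynomial (Fin (n + 1)) k} (hG : Tower G) :
    ∃ T : Set (MvPolynomial (Fin (n + 1)) k), T.Finite ∧ (∀ l ∈ T, IsLin l) ∧
      ∀ Lf : MvPolynomial (Fin (n + 1)) k → Prop, (∀ l ∈ T, Lf l) → TowerOver Lf G := by
  obtain ⟨s, e, L, c, g, he, hs, hL, hg, rfl⟩ := hG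
  choose T hT1 hT2 hT3 using fun i => gate_leaves (hg i)
  refine ⟨⋃ i, T i, Set.finite_iUnion hT1, ?_, fun Lf h => ⟨s, e, L, c, g, he, hs, hL,
    fun i => ?_, rfl⟩⟩
  · rintro l hl
    obtain ⟨i, hi⟩ := Set.mem_iUnion.1 hl
    exact hT2 i l hi
  · exact hT3 i Lf fun l hl => h l (Set.mem_iUnion.2 ⟨i, hl⟩)

theorem isLin_form {p : MvPolynomial (Fin (n + 1)) k} (h : IsLin p) : IsForm p := by
  obtain ⟨a, rfl⟩ := h
  refine ⟨1, IsHomogeneous.sum _ _ _ fun j _ => ?_⟩
  have := (isHomogeneous_C (Fin (n + 1)) (a j)).mul (isHomogeneous_X k j)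
  simpa using this

/-- a polynomial along a line -/
noncomputable def along (x v : Fin (n + 1) → k) (H : MvPolynomial (Fin (n + 1)) k) :
    Polynomial k := aeval (fun j => Polynomial.C (x j) + Polynomial.X * Polynomial.C (v j)) H

theorem eval_along (x v : Fin (n + 1) → k) (H : MvPolynomial (Fin (n + 1)) k) (t : k) :
    (along x v H).eval t = val (fun j => x j + t * v j) H := by
  unfold along
  rw [ev_aeval]
  congr 1
  funext j
  simp only [Polynomial.eval_add, Polynomial.eval_C, Polynomial.eval_mul, Polynomial.eval_X]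

variable {F : ι → MvPolynomial (Fin (n + 1)) k}

/-- the two notions of lines -/
theorem punct_of_line [Infinite k] (hF : ∀ i, IsForm (F i)) {x v : Fin (n + 1) → k}
    (hv : ∃ j j', v j * x j' ≠ v j' * x j)
    (hl : ∀ (a : k) (i : ι), val (fun j => x j + a * v j) (F i) = 0) :
    PunctX F (Empty.elim : Empty → MvPolynomial (Fin (n + 1)) k) x := by
  obtain ⟨j, j', hj⟩ := hv
  have hne : ∀ (c c' : k) (i : ι), c ≠ 0 → val (fun l => c * x l + c' * v l) (F i) = 0 := by
    intro c c' i hc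
    obtain ⟨d, hd⟩ := hF i
    have h1 : (fun l => c * x l + c' * v l) = fun l => c * (x l + c' / c * v l) := by
      funext l
      field_simp
    rw [h1, val_smul hd, hl, mul_zero]
  refine ⟨v, ∅, ⟨j', j, sub_ne_zero.2 fun h0 => hj ?_⟩, fun c c' i => ?_,
    fun _ _ j => j.elim, fun _ _ j => j.elim⟩
  · linear_combination h0
  · by_cases hc : c = 0
    · have h1 : along (fun l => c' * v l) x (F i) = 0 := by
        have h2 : Polynomial.X * along (fun l => c' * v l) x (F i) = 0 := by
          apply poly_zero_of_all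
          intro t
          rw [Polynomial.eval_mul, Polynomial.eval_X, eval_along]
          by_cases ht : t = 0
          · rw [ht, zero_mul]
          · have h3 := hne t c' i ht
            have h4 : (fun l => c' * v l + t * x l) = fun l => t * x l + c' * v l := by
              funext l
              ring
            rw [h4, h3, mul_zero]
        exact (mul_eq_zero.1 h2).resolve_left Polynomial.X_ne_zero
      have h2 := eval_along (fun l => c' * v l) x (F i) 0
      rw [h1, Polynomial.eval_zero] at h2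
      have h4 : (fun l => c * x l + c' * v l) = fun l => c' * v l + 0 * x l := by
        funext l
        rw [hc]
        ring
      rw [h4]
      exact h2.symm
    · exact hne c c' i hc

variable {K : Type} [Field K] [Algebra k K]

theorem subVarQ {w : ℕ} {y : Fin (n + 1) → K} (hy : SubVar F K w y) :
    SubVarQ F (Empty.elim : Empty → MvPolynomial (Fin (n + 1)) k) K w y :=
  ⟨hy.ne, hy.mem, fun j => j.elim, hy.gen, hy.dim⟩

theorem ptsQ_iff (x : Fin (n + 1) → k) :
    x ∈ PtsQ F (Empty.elim : Empty → MvPolynomial (Fin (n + 1)) k) ↔ x ∈ Cone F :=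
  ⟨fun h => ⟨h.1, h.2.1⟩, fun h => ⟨h.1, h.2, fun j => j.elim⟩⟩

theorem isComponentQ {y : Fin (n + 1) → K} (hy : IsComponent F y) :
    IsComponentQ F (Empty.elim : Empty → MvPolynomial (Fin (n + 1)) k) y := by
  obtain ⟨H, h1, h2, h3⟩ := hy
  exact ⟨H, h1, h2, fun x hx => h3 x ((ptsQ_iff x).1 hx)⟩

/-- points of the component lie on the variety -/
theorem cone_of_varPts {w : ℕ} {y : Fin (n + 1) → K} (hF : ∀ i, IsForm (F i))
    (hy : SubVar F K w y) {x : Fin (n + 1) → k} (hx : x ∈ VarPts k y) : x ∈ Cone F :=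
  ⟨hx.1, fun i => hx.2 (F i) (hF i) (hy.mem i)⟩

/-- a line through a general point of the component lies in the component -/
theorem lineIn_of_punct [Infinite k] {y : Fin (n + 1) → K} {H : MvPolynomial (Fin (n + 1)) k}
    (hcone : ∀ x ∈ Cone F, val x H ≠ 0 → x ∈ VarPts k y) {x v : Fin (n + 1) → k}
    (hxH : val x H ≠ 0) (hv : ∃ j j', v j * x j' ≠ v j' * x j)
    (hl : ∀ (a : k) (i : ι), val (fun j => x j + a * v j) (F i) = 0) : LineIn y x v := by
  refine ⟨hv, fun a G hG hGy => ?_⟩
  have h1 : along x v H * along x v G = 0 := by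
    apply poly_zero_of_all
    intro t
    rw [Polynomial.eval_mul, eval_along, eval_along]
    by_cases h0 : val (fun j => x j + t * v j) H = 0
    · rw [h0, zero_mul]
    · have h2 : (fun j => x j + t * v j) ∈ Cone F := by
        refine ⟨fun h3 => ?_, hl t⟩
        obtain ⟨j, j', hj⟩ := hv
        apply hj
        have h4 := congrFun h3 j
        have h5 := congrFun h3 j'
        simp only [Pi.zero_apply] at h4 h5
        linear_combination v j * h5 - v j' * h4
      rw [(hcone _ h2 h0).2 G hG hGy, mul_zero]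
  have h2 : along x v H ≠ 0 := by
    intro h0
    have h3 := eval_along x v H 0
    rw [h0, Polynomial.eval_zero] at h3
    apply hxH
    rw [h3]
    congr 1
    funext j
    ring
  rw [← eval_along, (mul_eq_zero.1 h1).resolve_left h2, Polynomial.eval_zero]

theorem punct_line {x : Fin (n + 1) → k}
    (h : PunctX F (Empty.elim : Empty → MvPolynomial (Fin (n + 1)) k) x) :
    ∃ v : Fin (n + 1) → k, (∃ j j', v j * x j' ≠ v j' * x j) ∧
      ∀ (a : k) (i : ι), val (fun j => x j + a * v j) (F i) = 0 := by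
  obtain ⟨v, T, ⟨i, j, hij⟩, hl, -⟩ := h
  refine ⟨v, ⟨j, i, fun h0 => hij ?_⟩, fun a e => ?_⟩
  · linear_combination h0
  · simpa only [one_mul] using hl 1 a e

/-- **Finiteness.** -/
theorem few_pointed [IsAlgClosed k] [CharZero k] [Finite ι] (hF : ∀ i, Tower (F i)) {w : ℕ}
    {y : Fin (n + 1) → K} (hy : SubVar F K w y)
    (hlin : LinBound y (Empty.elim : Empty → MvPolynomial (Fin (n + 1)) k))
    (hfew : ∃ G : MvPolynomial (Fin (n + 1)) k, IsForm G ∧ val y G ≠ 0 ∧
      ∀ x ∈ VarPts k y, x ∈ PtsQ F (Empty.elim : Empty → MvPolynomial (Fin (n + 1)) k) →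
        PunctX F (Empty.elim : Empty → MvPolynomial (Fin (n + 1)) k) x → val x G = 0) :
    PseudoGeomHyp k y := by
  classical
  have hFf : ∀ i, IsForm (F i) := fun i => (hF i).hom
  choose T hT1 hT2 hT3 using fun i => tower_leaves (hF i)
  have hTfin : (⋃ i, T i).Finite := Set.finite_iUnion hT1
  obtain ⟨T0, hT0⟩ : ∃ T0 : Finset (MvPolynomial (Fin (n + 1)) k), (T0 : Set _) = ⋃ i, T i :=
    ⟨hTfin.toFinset, hTfin.coe_toFinset⟩
  have hmem : ∀ p, p ∈ T0 ↔ ∃ i, p ∈ T i := fun p => by
    rw [← Finset.mem_coe, hT0, Set.mem_iUnion]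
  obtain ⟨G1, hG1f, hG1, B, hB⟩ := hlin
  obtain ⟨G2, hG2f, hG2, hG2x⟩ := hfew
  let T1 : Finset (MvPolynomial (Fin (n + 1)) k) := T0.filter fun p => val y p ≠ 0
  have hval_prod : ∀ {M : Type} [Field M] [Algebra k M] (z : Fin (n + 1) → M),
      val z (∏ p ∈ T1, p) = ∏ p ∈ T1, val z p := by
    intro M _ _ z
    unfold Pool.Agent.W602.GT.val
    rw [map_prod]
  refine ⟨G1 * G2 * ∏ p ∈ T1, p, ?_, ?_, fun L _ _ _ c x hx hxG => ?_⟩
  · obtain ⟨a, ha⟩ := hG1f
    obtain ⟨b, hb⟩ := hG2f
    have h1 : ∀ p ∈ T1, ∃ d, p.IsHomogeneous d := fun p hp => by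
      obtain ⟨i, hi⟩ := (hmem p).1 (Finset.mem_filter.1 hp).1
      exact isLin_form (hT2 i p hi)
    have h2 : IsForm (∏ p ∈ T1, p) := by
      refine ⟨∑ p ∈ T1.attach, (h1 p.1 p.2).choose, ?_⟩
      rw [← Finset.prod_attach]
      exact IsHomogeneous.prod _ _ _ fun p _ => (h1 p.1 p.2).choose_spec
    obtain ⟨d, hd⟩ := h2
    exact ⟨a + b + d, (ha.mul hb).mul hd⟩
  · rw [val_mul, val_mul, hval_prod]
    exact mul_ne_zero (mul_ne_zero hG1 hG2)
      (Finset.prod_ne_zero_iff.2 fun p hp => (Finset.mem_filter.1 hp).2)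
  rw [val_mul, val_mul, hval_prod] at hxG
  have hx1 := left_ne_zero_of_mul (left_ne_zero_of_mul hxG)
  have hx2 := right_ne_zero_of_mul (left_ne_zero_of_mul hxG)
  have hx3 := right_ne_zero_of_mul hxG
  by_contra hfin
  have hinf : (PointedMaps y c x).Infinite := hfin
  obtain ⟨j0, hj0⟩ := Function.ne_iff.1 hx.1
  have hj0 : x j0 ≠ 0 := hj0
  set M : Set (Fin (n + 1) → L) := {f | f j0 = 1 ∧ (∀ H : MvPolynomial (Fin (n + 1)) k, IsForm H →
    val y H = 0 → val f H = 0) ∧ HasValue c x f} with hM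
  have hMinf : M.Infinite := by
    intro hMfin
    obtain ⟨φ0, -⟩ := hinf.nonempty
    let g : (Fin (n + 1) → L) → ℙ L (Fin (n + 1) → L) := fun f =>
      if h : f ≠ 0 then Projectivization.mk L f h else φ0
    refine hinf ((hMfin.image g).subset ?_)
    rintro φ ⟨f, hf, hmap, hval, rfl⟩
    have hfne : ∃ j, f j ≠ 0 := Function.ne_iff.1 hf
    have hfj0 := Pool.Agent.W273.RG.FNW.hv_ne hfne hval hj0
    have hc0 : (f j0)⁻¹ ≠ 0 := inv_ne_zero hfj0
    have hf' : (fun j => (f j0)⁻¹ * f j) ≠ 0 := by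
      intro h0
      have := congrFun h0 j0
      simp only [Pi.zero_apply] at this
      exact (mul_ne_zero hc0 hfj0) this
    refine ⟨fun j => (f j0)⁻¹ * f j, ⟨inv_mul_cancel₀ hfj0, ?_,
      Pool.Agent.W273.RG.FNW.hv_scale hfne hval hc0⟩, ?_⟩
    · intro H hH hyH
      have h3 := hmap H hH hyH
      obtain ⟨e, he⟩ := hH
      rw [val_smul he, h3, mul_zero]
    · change (if h : (fun j => (f j0)⁻¹ * f j) ≠ 0 then
        Projectivization.mk L (fun j => (f j0)⁻¹ * f j) h else φ0) = _
      rw [dif_pos hf', Projectivization.mk_eq_mk_iff']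
      exact ⟨(f j0)⁻¹, by funext j; rfl⟩
  have hvalues : ∀ f ∈ M, ∀ j, f j = algebraMap k L (x j / x j0) ∨
      0 < c.ord (f j - algebraMap k L (x j / x j0)) := by
    rintro f ⟨hf0, hmap, hval⟩ j
    have hp := Pool.Agent.W273.RG.FNW.pord_zero hval hj0 hf0
    have hxj0 : algebraMap k L (x j0) ≠ 0 := (map_ne_zero _).2 hj0
    have e : algebraMap k L (x j0) * f j - algebraMap k L (x j) * f j0 =
        algebraMap k L (x j0) * (f j - algebraMap k L (x j / x j0)) := by
      rw [hf0, map_div₀]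
      field_simp
    rcases hval j0 j with h3 | h3
    · left
      rw [e] at h3
      exact sub_eq_zero.1 ((mul_eq_zero.1 h3).resolve_left hxj0)
    · by_cases h4 : f j - algebraMap k L (x j / x j0) = 0
      · left; exact sub_eq_zero.1 h4
      · right
        rw [e, c.ord_mul hxj0 h4, c.ord_const hj0, zero_add, hp] at h3
        exact h3
  have hbound : ∀ f ∈ M, pht k f ≤ B * max (canDeg k L + (∅ : Finset (Place k L)).card) 0 := by
    intro f hf
    obtain ⟨hf0, hmap, hval⟩ := hf
    refine hB L ∅ f ⟨⟨j0, by rw [hf0]; exact one_ne_zero⟩, hmap, fun j => j.elim⟩ fun h0 => ?_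
    have h1 : ∀ j, Ge c 1 (f j - algebraMap k L (x j / x j0)) := by
      intro j
      rcases hvalues f ⟨hf0, hmap, hval⟩ j with h | h
      · left; rw [h, sub_self]
      · right; omega
    have h2 : ∀ j, Ge c 0 (f j) := by
      intro j
      have h3 : f j = (f j - algebraMap k L (x j / x j0)) + algebraMap k L (x j / x j0) := by ring
      rw [h3]
      exact ((h1 j).mono (by norm_num)).add (Ge.const _)
    have h3 := red_mvaeval c h2 h1 G1
    rw [h0, zero_sub] at h3
    have h4 := h3.neg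
    rw [neg_neg] at h4
    have h5 := const_zero c h4
    apply hx1
    obtain ⟨d, hd⟩ := hG1f
    have h6 : x = fun j => x j0 * (x j / x j0) := by
      funext j
      field_simp
    rw [h6, val_smul hd]
    have h7 : val (fun j => x j / x j0) G1 = eval (fun j => x j / x j0) G1 := by
      unfold Pool.Agent.W602.GT.val
      rw [MvPolynomial.aeval_def, MvPolynomial.eval₂_eq', MvPolynomial.eval_eq']
      rfl
    rw [h7, h5, mul_zero]
  have hzero : ∀ f ∈ M, ∀ p, p ∈ T0 → val x p = 0 → aeval f p = 0 := by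
    intro f hf p hp hp0
    obtain ⟨i, hi⟩ := (hmem p).1 hp
    refine hf.2.1 p (isLin_form (hT2 i p hi)) ?_
    by_contra hpy
    exact Finset.prod_ne_zero_iff.1 hx3 p (Finset.mem_filter.2 ⟨hp, hpy⟩) hp0
  obtain ⟨v, hv, hl⟩ := line_of_infinite (F := F) (Lf := fun p => p ∈ T0) (fun i => hT3 i _
    fun l hl => (hmem l).2 ⟨i, hl⟩) hFf (fun p hp => by
      obtain ⟨i, hi⟩ := (hmem p).1 hp
      exact hT2 i p hi) c x j0 hj0 _ M hMinf (fun f hf => ⟨hf.1, fun i => hf.2.1 _ (hFf i)
        (hy.mem i), hzero f hf, hvalues f hf, hbound f hf⟩)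
  exact hx2 (hG2x x hx ((ptsQ_iff x).2 (cone_of_varPts hFf hy hx)) (punct_of_line hFf hv hl))

/-- **General type and pointed maps.** -/
theorem pointed_tfae [IsAlgClosed k] [CharZero k] [Finite ι] (hF : ∀ i, Tower (F i)) {w : ℕ}
    {y : Fin (n + 1) → K} (hy : SubVar F K w y) (hcomp : IsComponent F y) :
    [PseudoGeomHyp k y,
      ∃ G : MvPolynomial (Fin (n + 1)) k, IsForm G ∧ val y G ≠ 0 ∧
        ∀ (c : Place k (RatFunc k)), ∀ x ∈ VarPts k y, val x G ≠ 0 → (PointedMaps y c x).Finite,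
      FewLines k y, LinBound y (Empty.elim : Empty → MvPolynomial (Fin (n + 1)) k)].TFAE := by
  have hFf : ∀ i, IsForm (F i) := fun i => (hF i).hom
  have key := comp_bounds (κ := Empty) (Q := Empty.elim) hF (fun j => j.elim) (subVarQ hy)
    (isComponentQ hcomp)
  tfae_have 1 → 2 := fun ⟨G, h1, h2, h3⟩ => ⟨G, h1, h2, fun c => h3 (RatFunc k) c⟩
  tfae_have 2 → 3 := by
    rintro ⟨G, hGf, hGy, h⟩
    refine ⟨G, hGf, hGy, fun x hx hxG v hv => ?_⟩
    obtain ⟨c, hc⟩ := lnw_all k n K y x v hx.1 hv.1 hv.2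
    exact hc (h c x hx hxG)
  have h35 : FewLines k y → ∃ G : MvPolynomial (Fin (n + 1)) k, IsForm G ∧ val y G ≠ 0 ∧
      ∀ x ∈ VarPts k y, x ∈ PtsQ F (Empty.elim : Empty → MvPolynomial (Fin (n + 1)) k) →
        PunctX F (Empty.elim : Empty → MvPolynomial (Fin (n + 1)) k) x → val x G = 0 := by
    rintro ⟨G, hGf, hGy, h⟩
    obtain ⟨H, hHf, hHy, hcone⟩ := hcomp
    refine ⟨G * H, ?_, ?_, fun x hx _ hP => ?_⟩
    · obtain ⟨a, ha⟩ := hGf
      obtain ⟨b, hb⟩ := hHf
      exact ⟨a + b, ha.mul hb⟩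
    · rw [val_mul]
      exact mul_ne_zero hGy hHy
    · by_contra hne
      rw [val_mul] at hne
      obtain ⟨v, hv, hl⟩ := punct_line hP
      exact h x hx (left_ne_zero_of_mul hne) v
        (lineIn_of_punct hcone (right_ne_zero_of_mul hne) hv hl)
  tfae_have 3 → 4 := fun h => (key.out 4 0).1 (h35 h)
  tfae_have 4 → 1 := fun h => few_pointed hF hy h ((key.out 0 4).1 h)
  tfae_finish

/-- varieties of general type -/
theorem pointed_of_general [IsAlgClosed k] [CharZero k] [Finite ι] (hF : ∀ i, Tower (F i))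
    {w : ℕ} {y : Fin (n + 1) → K} (hy : SubVar F K w y) (hcomp : IsComponent F y)
    (h : GeneralType k K w) : PseudoGeomHyp k y :=
  ((pointed_tfae hF hy hcomp).out 3 0).1 (lin_of_lgt hF (fun j => j.elim) (subVarQ hy)
    (isComponentQ hcomp) (log_of_general h _))

/-- large exponents -/
theorem general_of_pointed [IsAlgClosed k] [CharZero k] [Finite ι] (hF : ∀ i, Tower (F i))
    {s N h : ℕ} (hF' : ∀ i, IsNested s N h (F i))
    (hN : (n + 1) * ((h + 1) * (2 * s + 1) ^ 5) ≤ N) {w : ℕ} {y : Fin (n + 1) → K}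
    (hy : SubVar F K w y) (hcomp : IsComponent F y) (hP : PseudoGeomHyp k y) :
    GeneralType k K w := by
  have h1 := ((pointed_tfae hF hy hcomp).out 0 3).1 hP
  have key := comp_bounds (κ := Empty) (Q := Empty.elim) hF (fun j => j.elim) (subVarQ hy)
    (isComponentQ hcomp)
  have h2 := lgt_of_gm (κ := Empty) (Q := Empty.elim) hF' (fun j => j.elim) hN (fun j => j.elim)
    (subVarQ hy) (isComponentQ hcomp) ((key.out 0 3).1 h1)
  apply Pool.Agent.W602.GT.general_of_log
  have h3 : OffAny (Empty.elim : Empty → MvPolynomial (Fin (n + 1)) k) y =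
      fun _ : Place k K => False := by
    funext P
    apply propext
    exact ⟨fun ⟨j, _⟩ => j.elim, False.elim⟩
  rwa [h3] at h2

end Pool.Agent.TH710.NR
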