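import Pool.Agent.TH710.NR.Sys
import Pool.Agent.W588.RG.ABW

/-!
The system given by a derivation of a constant field extension of a function field.
-/

set_option autoImplicit false

open FF MvPolynomial Pool.Agent.TH710.ND Pool.Agent.W602.RG Pool.Agent.W603.LV Pool.Agent.W603.PV

namespace Pool.Agent.TH710.NR

variable {k L Ω E : Type} [Field k] [Field L] [Field Ω] [Field E] [Algebra k L]
    [Algebra k Ω] [Algebra k E] [Algebra L E] [Algebra Ω E]

/-- the products of an element of `Ω` and an element which is killed by the derivation -/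
def Sm (Ω : Type) {L E : Type} [Field L] [Field Ω] [Field E] [Algebra L E] [Algebra Ω E]
    (D : Derivation L E E) : Set E :=
  {z | z = 0 ∨ Rel Ω D z 1}

/-- the orders at the moving places are divisible by `e` -/
def DvM (Ω : Type) {L E : Type} [Field L] [Field Ω] [Field E] [Algebra L E] [Algebra Ω E]
    (D : Derivation L E E) (e : ℕ) (z : E) : Prop :=
  ∀ P : Place Ω E, Mov D P → (e : ℤ) ∣ P.ord z

omit [Field k] [Algebra k L] [Algebra k Ω] [Algebra k E] in
theorem D_neg_zero {D : Derivation L E E} {e : E} (h : D e = 0) : D (-e) = 0 := by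
  rw [map_neg, h, neg_zero]

theorem root_zero [CharZero E] {D : Derivation L E E} {e : E} (he : e ≠ 0) {N : ℕ} (hN : 0 < N)
    (h : D (e ^ N) = 0) : D e = 0 := by
  rw [D.leibniz_pow] at h
  simp only [nsmul_eq_mul, smul_eq_mul] at h
  have h2 : (N : E) ≠ 0 := by exact_mod_cast hN.ne'
  exact ((mul_eq_zero.1 ((mul_eq_zero.1 h).resolve_left h2)).resolve_left (pow_ne_zero _ he))

/-- **The system.** -/
theorem msys [CharZero L] [CharZero Ω] [CharZero E] [IsAlgClosed Ω] [IsFF Ω E]
    [IsScalarTower k Ω E] {D : Derivation L E E}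
    (hreg : ∀ P : Place Ω E, Reg0 D P ∨ Mov D P) : MSys k (Sm Ω D) (DvM Ω D) := by
  classical
  refine ⟨?_, ?_, ?_, ?_, ?_, ?_, ?_, ?_, ?_⟩
  · rintro z w (rfl | ⟨ω, e, hω, he, hD, rfl⟩) (rfl | ⟨ω', e', hω', he', hD', rfl⟩)
    · exact Or.inl (mul_zero _)
    · exact Or.inl (zero_mul _)
    · exact Or.inl (mul_zero _)
    · refine Or.inr ⟨ω * ω', e * e', mul_ne_zero hω hω', mul_ne_zero he he', ?_, ?_⟩
      · rw [D.leibniz, hD, hD']; simp
      · rw [map_mul]; ring
  · rintro z (rfl | h)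
    · exact Or.inl inv_zero
    · obtain ⟨ω, e, hω, he, hD, rfl⟩ := h
      refine Or.inr ⟨ω⁻¹, e⁻¹, inv_ne_zero hω, inv_ne_zero he, D_inv_zero D he hD, ?_⟩
      rw [map_inv₀, mul_one, mul_one, mul_inv]
  · rintro z (rfl | ⟨ω, e, hω, he, hD, rfl⟩)
    · exact Or.inl neg_zero
    · exact Or.inr ⟨ω, -e, hω, neg_ne_zero.2 he, D_neg_zero hD, by ring⟩
  · intro a
    by_cases ha : a = 0
    · exact Or.inl (by rw [ha, map_zero])
    · refine Or.inr ⟨algebraMap k Ω a, 1, (map_ne_zero _).2 ha, one_ne_zero,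
        D.map_one_eq_zero, ?_⟩
      rw [mul_one, mul_one, ← IsScalarTower.algebraMap_apply]
  · rintro z N hN (h | ⟨ω, e, hω, he, hD, h⟩)
    · exact Or.inl (pow_eq_zero_iff hN.ne' |>.1 h)
    · obtain ⟨ω1, hω1⟩ := IsAlgClosed.exists_pow_nat_eq ω hN
      have hω10 : ω1 ≠ 0 := by
        rintro rfl
        rw [zero_pow hN.ne'] at hω1
        exact hω hω1.symm
      have hωE : algebraMap Ω E ω1 ≠ 0 := (map_ne_zero _).2 hω10
      have hωE' : algebraMap Ω E ω ≠ 0 := (map_ne_zero _).2 hω
      have hz : z ≠ 0 := by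
        rintro rfl
        rw [zero_pow hN.ne', mul_one] at h
        exact mul_ne_zero hωE' he h.symm
      have h1 : (z / algebraMap Ω E ω1) ^ N = e := by
        rw [div_pow, ← map_pow, hω1, h, mul_one, mul_div_cancel_left₀ _ hωE']
      refine Or.inr ⟨ω1, z / algebraMap Ω E ω1, hω10, div_ne_zero hz hωE,
        root_zero (div_ne_zero hz hωE) hN (by rw [h1, hD]), ?_⟩
      rw [mul_one]
      field_simp
  · rintro e z hz P hP
    rcases hz with rfl | ⟨ω, ε, hω, hε, hD, rfl⟩
    · rw [P.ord_zero]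
      exact dvd_zero _
    · rw [mul_one, P.ord_mul ((map_ne_zero _).2 hω) hε, P.ord_const hω, hP.2.2 _ hD, add_zero]
      exact dvd_zero _
  · intro e z P _
    rw [P.ord_pow]
    exact dvd_mul_right _ _
  · intro e z w hz hw P hP
    by_cases hz0 : z = 0
    · rw [hz0, zero_mul, P.ord_zero]
      exact dvd_zero _
    by_cases hw0 : w = 0
    · rw [hw0, mul_zero, P.ord_zero]
      exact dvd_zero _
    rw [P.ord_mul hz0 hw0]
    exact dvd_add (hz P hP) (hw P hP)
  · intro e he J _ T hT hsum hcard j0 hj0 A hA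
    have h0 : ∑ j ∈ Finset.univ.filter (fun j => T j ≠ 0), (1 : E) * T j = 0 := by
      simp only [one_mul]
      refine (Finset.sum_subset (Finset.filter_subset _ _) fun j _ hj => ?_).trans hsum
      by_contra h
      exact hj (Finset.mem_filter.2 ⟨Finset.mem_univ _, h⟩)
    have h1 := cls_all L Ω E J D hreg (Finset.univ.filter fun j => T j ≠ 0) e he
      ((Nat.pow_le_pow_left (by
        have h2 := Finset.card_filter_le (Finset.univ : Finset J) (fun j => T j ≠ 0)
        rw [Finset.card_univ] at h2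
        omega) 2).trans hcard) T (fun _ => 1)
      (fun i hi => (Finset.mem_filter.1 hi).2) (fun _ _ => D.map_one_eq_zero) h0
      (fun P hP i hi j hj => dvd_sub (hT i (Finset.mem_filter.1 hi).2 P hP)
        (hT j (Finset.mem_filter.1 hj).2 P hP)) j0 A
      (Finset.mem_filter.2 ⟨Finset.mem_univ _, hj0⟩) (fun j => by
        rw [hA j, Finset.mem_filter]
        refine ⟨fun ⟨h2, h3⟩ => ⟨⟨Finset.mem_univ _, h2⟩, ?_⟩,
          fun ⟨⟨_, h2⟩, h3⟩ => ⟨h2, Or.inr ?_⟩⟩
        · rcases h3 with h3 | ⟨ω, ε, hω, hε, hD, h3⟩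
          · exact absurd h3 (div_ne_zero hj0 h2)
          · apply Rel.symm'
            refine ⟨ω, ε, hω, hε, hD, ?_⟩
            rw [mul_one, div_eq_iff h2] at h3
            exact h3
        · obtain ⟨ω, ε, hω, hε, hD, h3⟩ := h3.symm'
          refine ⟨ω, ε, hω, hε, hD, ?_⟩
          rw [h3, mul_one, mul_div_cancel_right₀ _ h2])
    simpa only [one_mul] using h1

end Pool.Agent.TH710.NR
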