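import Pool.Agent.TH710.NR.Der
import Pool.Agent.TH710.NU.Good
import Pool.Agent.TH710.ND.LogK
import Pool.Agent.W603.LV.Spec

/-!
A nonconstant family of pointed maps to a variety given by nested sums of few high powers of linear
forms gives a line.
-/

set_option autoImplicit false

open FF MvPolynomial Pool.Agent.TH710.ND Pool.Agent.W602.RG Pool.Agent.W603.LV
  Pool.Agent.W603.PV Pool.Agent.W588.RG.ABW
open Pool.Agent.W602.GT (lin lin_div val val_smul val_mul IsForm)

namespace Pool.Agent.TH710.NR

variable {k L Ω E : Type} [Field k] [Field L] [Field Ω] [Field E] [Algebra k L]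
    [Algebra k Ω] [Algebra k E] [Algebra L E] [Algebra Ω E] {n : ℕ} {ι : Type}

/-- `G` is a nested sum of few high powers of the leaves `Lf`. -/
def TowerOver (Lf : MvPolynomial (Fin (n + 1)) k → Prop) (G : MvPolynomial (Fin (n + 1)) k) :
    Prop :=
  ∃ (s e : ℕ) (L : List (ℕ × ℕ)) (c : Fin s → k) (g : Fin s → MvPolynomial (Fin (n + 1)) k),
    0 < e ∧ (s - 1) ^ 2 ≤ e ∧ Pool.Agent.TH710.NU.GoodL L ∧ (∀ i, GateL Lf L (g i)) ∧
      G = ∑ i, C (c i) * g i ^ e

/-- the linear form with the coefficients `a` -/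
noncomputable def lf (a : Fin (n + 1) → k) : MvPolynomial (Fin (n + 1)) k := ∑ j, C (a j) * X j

theorem aeval_lf {M : Type} [CommRing M] [Algebra k M] (a : Fin (n + 1) → k)
    (x : Fin (n + 1) → M) : aeval x (lf a) = ∑ j, algebraMap k M (a j) * x j := by
  unfold lf
  rw [map_sum]
  exact Finset.sum_congr rfl fun j _ => by rw [map_mul, aeval_C, aeval_X]

theorem aeval_lf' {M : Type} [Field M] [Algebra k M] (a : Fin (n + 1) → k)
    (x : Fin (n + 1) → M) : aeval x (lf a) = lin a x := aeval_lf a x

/-- a linear form along a line -/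
theorem aeval_line (a : Fin (n + 1) → k) (f g : Fin (n + 1) → E) :
    (aeval (fun j => Polynomial.C (f j) + Polynomial.X * Polynomial.C (g j)) (lf a) :
      Polynomial E) = Polynomial.C (lin a f) + Polynomial.X * Polynomial.C (lin a g) := by
  rw [aeval_lf]
  unfold lin
  rw [map_sum, map_sum, Finset.mul_sum, ← Finset.sum_add_distrib]
  refine Finset.sum_congr rfl fun j _ => ?_
  have h1 : algebraMap k (Polynomial E) (a j) = Polynomial.C (algebraMap k E (a j)) := rfl
  rw [h1, Polynomial.C_mul, Polynomial.C_mul]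
  ring

/-- **A line.** -/
theorem line_of_family [IsAlgClosed k] [CharZero k] [IsFF k L] [IsAlgClosed Ω] [CharZero Ω]
    (hBC : BC k L Ω E) {F : ι → MvPolynomial (Fin (n + 1)) k}
    {Lf : MvPolynomial (Fin (n + 1)) k → Prop} (hF : ∀ i, TowerOver Lf (F i))
    (hFh : ∀ i, IsForm (F i)) (hLf : ∀ p, Lf p → IsLin p) (x : Fin (n + 1) → k)
    (f : Fin (n + 1) → E) (hZ : ∀ p, Lf p → val x p = 0 → aeval f p = 0)
    (j0 : Fin (n + 1)) (hj0 : x j0 ≠ 0) (hfj0 : f j0 = 1) (hsum : ∀ i, aeval f (F i) = 0)
    (P : Place Ω E) (hP : ∃ l : L, P.ord (algebraMap L E l) ≠ 0)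
    (hPx : ∀ j, f j = algebraMap k E (x j / x j0) ∨
      0 < P.ord (f j - algebraMap k E (x j / x j0)))
    (P1 : Place Ω E) (hP1 : ∃ l : L, P1.ord (algebraMap L E l) ≠ 0) (i1 : Fin (n + 1)) (θ : Ω)
    (hθ : Transcendental k θ)
    (hPθ : f i1 = algebraMap Ω E θ ∨ 0 < P1.ord (f i1 - algebraMap Ω E θ)) :
    ∃ v : Fin (n + 1) → k, (∃ j j', v j * x j' ≠ v j' * x j) ∧
      ∀ (a : k) (i : ι), val (fun j => x j + a * v j) (F i) = 0 := by
  classical
  have hkL : IsScalarTower k L E := hBC.towerL
  have hkΩ : IsScalarTower k Ω E := hBC.towerO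
  have hcL : CharZero L := charZero_of_injective_algebraMap (algebraMap k L).injective
  have hcE : CharZero E := charZero_of_injective_algebraMap (algebraMap k E).injective
  have hFF : IsFF Ω E := Pool.Agent.W215.RG.ISF.main k L Ω E hBC
  obtain ⟨D0, hD0⟩ := Pool.Agent.W160.RG.DER.main k Ω θ hθ
  obtain ⟨D, hD⟩ := Pool.Agent.W797.RG.main k L Ω E hBC D0
  have hregC : ∀ P : Place Ω E, (∃ l : L, P.ord (algebraMap L E l) ≠ 0) → Reg0 D P :=
    Pool.Agent.W215.RG.RGC.main k L Ω E hBC D D0 hD
  have hreg : ∀ P : Place Ω E, Reg0 D P ∨ Mov D P := by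
    intro P
    by_cases h : ∃ l : L, P.ord (algebraMap L E l) ≠ 0
    · exact Or.inl (hregC P h)
    · push Not at h
      exact Pool.Agent.W440.RG.RGM.main k L Ω E hBC D D0 hD P h
  have hDk : ∀ a : k, D (algebraMap k E a) = 0 := by
    intro a
    rw [IsScalarTower.algebraMap_apply k L E, D.map_algebraMap]
  -- the point and its residues
  have hPx' : ∀ j, Ge P 1 (f j - algebraMap k E (x j / x j0)) := by
    intro j
    rcases hPx j with h | h
    · left; rw [h, sub_self]
    · right; omega
  have hlx : ∀ l : Fin (n + 1) → k, lin l (fun j => x j / x j0) = lin l x / x j0 := fun l =>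
    lin_div l x (x j0)
  have hlin : ∀ l : Fin (n + 1) → k, Ge P 1 (lin l f - algebraMap k E (lin l x / x j0)) := by
    intro l
    have h1 := cong_lin P l f (fun j => algebraMap k E (x j / x j0)) hPx'
    rw [lin_const (A := k) (B := E) l (fun j => x j / x j0), hlx] at h1
    exact h1
  -- proportional derivatives
  have hsys : MSys k (Sm Ω D) (DvM Ω D) := msys hreg
  have hprop : ∀ a b : Fin (n + 1) → k, Lf (lf a) → Lf (lf b) → lin a f ≠ 0 → lin b f ≠ 0 →
      lin a f / lin b f ∈ Sm Ω D → D (lin a f) * lin b f = D (lin b f) * lin a f := by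
    intro a b ha hb ha0 hb0 hab
    have hax : lin a x ≠ 0 := by
      intro h
      have h1 := hZ _ ha (by
        unfold Pool.Agent.W602.GT.val
        rw [aeval_lf']
        exact h)
      rw [aeval_lf'] at h1
      exact ha0 h1
    have hbx : lin b x ≠ 0 := by
      intro h
      have h1 := hZ _ hb (by
        unfold Pool.Agent.W602.GT.val
        rw [aeval_lf']
        exact h)
      rw [aeval_lf'] at h1
      exact hb0 h1
    refine key D D0 hD P (hregC P hP) (div_ne_zero hax hj0) (div_ne_zero hbx hj0)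
      (hlin _) (hlin _) one_pos ?_
    rcases hab with hab | ⟨ω, ε, hω, hε, hDε, hab⟩
    · exact absurd hab (div_ne_zero ha0 hb0)
    · refine ⟨ω, ε, hω, hε, hDε, ?_⟩
      rw [mul_one, div_eq_iff hb0] at hab
      rw [pow_one, pow_one, hab]
  -- the line over the large field
  let W : Fin (n + 1) → Polynomial E := fun j =>
    Polynomial.C (f j) + Polynomial.X * Polynomial.C (D (f j))
  have henv : MEnv (Sm Ω D) Lf f W := by
    constructor
    · intro p hp h0
      obtain ⟨a, ha⟩ := hLf p hp
      have ha' : p = lf a := ha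
      subst ha'
      rw [aeval_lf'] at h0
      change aeval (fun j => Polynomial.C (f j) + Polynomial.X * Polynomial.C (D (f j))) (lf a) =
        (0 : Polynomial E)
      rw [aeval_line, lin_D D hDk, h0, map_zero, map_zero, map_zero, mul_zero, add_zero]
    · intro p q hp hq hp0 hq0 hpq
      obtain ⟨a, ha⟩ := hLf p hp
      obtain ⟨b, hb⟩ := hLf q hq
      have ha' : p = lf a := ha
      have hb' : q = lf b := hb
      subst ha' hb'
      rw [aeval_lf'] at hp0 hq0
      rw [aeval_lf', aeval_lf'] at hpq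
      have h1 := hprop a b hp hq hp0 hq0 hpq
      change aeval (fun j => Polynomial.C (f j) + Polynomial.X * Polynomial.C (D (f j))) (lf a) *
        Polynomial.C _ = Polynomial.C _ * aeval (fun j => Polynomial.C (f j) +
          Polynomial.X * Polynomial.C (D (f j))) (lf b)
      have h2 : Polynomial.C (D (lin a f)) * Polynomial.C (lin b f) =
          Polynomial.C (D (lin b f)) * Polynomial.C (lin a f) := by
        rw [← Polynomial.C_mul, ← Polynomial.C_mul, h1]
      rw [aeval_line, aeval_line, lin_D D hDk, lin_D D hDk, aeval_lf', aeval_lf']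
      linear_combination Polynomial.X * h2
  have hW : ∀ i, (aeval W (F i) : Polynomial E) = 0 := by
    intro i
    obtain ⟨s, e, Ls, c, g, he, hs, hL, hg, hFi⟩ := hF i
    rw [hFi]
    refine eq_step hsys henv hL he hs c g hg ?_
    rw [← hFi]
    exact hsum i
  have hWt : ∀ (t : E) (i : ι), aeval (fun j => f j + t * D (f j)) (F i) = 0 := by
    intro t i
    have h1 := ev_aeval W (F i) t
    rw [hW, Polynomial.eval_zero] at h1
    have h2 : (fun j => (W j).eval t) = fun j => f j + t * D (f j) := by
      funext j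
      simp only [W, Polynomial.eval_add, Polynomial.eval_C, Polynomial.eval_mul,
        Polynomial.eval_X]
    rw [h2] at h1
    exact h1.symm
  -- the tangent vector
  have hDi1 : D (f i1) ≠ 0 := by
    intro h1
    rcases hPθ with h | h
    · rw [h, hD] at h1
      exact hD0 (by simpa using h1)
    · have h2 : D (f i1 - algebraMap Ω E θ) = - algebraMap Ω E (D0 θ) := by
        rw [map_sub, h1, hD, zero_sub]
      have h3 : algebraMap Ω E (D0 θ) ≠ 0 := (map_ne_zero _).2 hD0
      have h4 := hregC P1 hP1 (f i1 - algebraMap Ω E θ) (by rw [h2]; exact neg_ne_zero.2 h3)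
      rw [h2, P1.ord_neg, P1.ord_const hD0] at h4
      omega
  obtain ⟨j2, hj2, hmin⟩ := Finset.exists_min_image
    (Finset.univ.filter fun j => D (f j) ≠ 0) (fun j => P.ord (D (f j)))
    ⟨i1, Finset.mem_filter.2 ⟨Finset.mem_univ _, hDi1⟩⟩
  have hj2' : D (f j2) ≠ 0 := (Finset.mem_filter.1 hj2).2
  let v1 : Fin (n + 1) → E := fun j => D (f j) / D (f j2)
  have hv1 : ∀ j, Ge P 0 (v1 j) := by
    intro j
    by_cases h : D (f j) = 0
    · left; simp only [v1]; rw [h, zero_div]
    · right
      simp only [v1]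
      rw [P.ord_div h hj2']
      have := hmin j (Finset.mem_filter.2 ⟨Finset.mem_univ _, h⟩)
      omega
  have hv1j2 : v1 j2 = 1 := div_self hj2'
  have hv1j0 : v1 j0 = 0 := by
    simp only [v1]
    rw [hfj0, D.map_one_eq_zero, zero_div]
  choose v2 hv2 using fun j => exists_const P (hv1 j)
  have hv2j2 : v2 j2 = 1 := by
    have h1 := hv2 j2
    rw [hv1j2] at h1
    have h2 : Ge P 1 (algebraMap Ω E (1 - v2 j2)) := by rw [map_sub, map_one]; exact h1
    exact (sub_eq_zero.1 (Pool.Agent.W588.RG.ABW.const_zero P h2)).symm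
  have hv2j0 : v2 j0 = 0 := by
    have h1 := hv2 j0
    rw [hv1j0, zero_sub] at h1
    exact Pool.Agent.W588.RG.ABW.const_zero P (by simpa using h1.neg)
  -- reduction
  have hΩ : ∀ (a : k) (i : ι),
      aeval (fun j => algebraMap k Ω (x j / x j0) + algebraMap k Ω a * v2 j) (F i) = 0 := by
    intro a i
    have h1 : aeval (fun j => f j + algebraMap k E a * v1 j) (F i) = 0 := by
      have h2 := hWt (algebraMap k E a / D (f j2)) i
      have h3 : (fun j => f j + algebraMap k E a * v1 j) =
          fun j => f j + algebraMap k E a / D (f j2) * D (f j) := by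
        funext j
        simp only [v1]
        ring
      rw [h3]
      exact h2
    have h4 : ∀ j, Ge P 0 (f j + algebraMap k E a * v1 j) := by
      intro j
      refine Ge.add (cong_ge P (hPx' j) (ge_const_k P _)) ?_
      simpa using (ge_const_k P a).mul (hv1 j)
    have h5 : ∀ j, Ge P 1 (f j + algebraMap k E a * v1 j -
        algebraMap Ω E (algebraMap k Ω (x j / x j0) + algebraMap k Ω a * v2 j)) := by
      intro j
      rw [map_add, map_mul, ← IsScalarTower.algebraMap_apply k Ω E,
        ← IsScalarTower.algebraMap_apply k Ω E]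
      have h6 : f j + algebraMap k E a * v1 j -
          (algebraMap k E (x j / x j0) + algebraMap k E a * algebraMap Ω E (v2 j)) =
          (f j - algebraMap k E (x j / x j0)) +
            algebraMap k E a * (v1 j - algebraMap Ω E (v2 j)) := by ring
      rw [h6]
      refine Ge.add (hPx' j) ?_
      simpa using (ge_const_k P a).mul (hv2 j)
    have h7 := red_mvaeval P h4 h5 (MvPolynomial.map (algebraMap k Ω) (F i))
    rw [MvPolynomial.aeval_map_algebraMap, h1, zero_sub] at h7
    have h9 := h7.neg
    rw [neg_neg] at h9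
    have h8 := Pool.Agent.W588.RG.ABW.const_zero P h9
    rw [MvPolynomial.eval_map] at h8
    rw [MvPolynomial.aeval_def]
    exact h8
  -- descent to `k`
  obtain ⟨v0, hv0, hv0s⟩ := Pool.Agent.W602.GT.specialise v2
    (X j2 : MvPolynomial (Fin (n + 1)) k) (by
    rw [aeval_X, hv2j2]
    exact one_ne_zero)
  rw [aeval_X] at hv0
  have hv0j0 : v0 j0 = 0 := by
    have h1 := hv0s (X j0) (by rw [aeval_X, hv2j0])
    rwa [aeval_X] at h1
  have hline : ∀ (a : k) (i : ι), val (fun j => x j / x j0 + a * v0 j) (F i) = 0 := by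
    intro a i
    have hcomp : ∀ {M : Type} [Field M] [Algebra k M] (z : Fin (n + 1) → M),
        aeval z (aeval ((fun j => C (x j / x j0) + C a * X j) : Fin (n + 1) →
          MvPolynomial (Fin (n + 1)) k) (F i)) =
          aeval (fun j => algebraMap k M (x j / x j0) + algebraMap k M a * z j) (F i) := by
      intro M _ _ z
      have h2 := MvPolynomial.comp_aeval_apply
        (f := ((fun j => C (x j / x j0) + C a * X j) : Fin (n + 1) →
          MvPolynomial (Fin (n + 1)) k)) (aeval z : MvPolynomial (Fin (n + 1)) k →ₐ[k] M) (F i)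
      rw [h2]
      congr 2
      funext j
      rw [map_add, map_mul, aeval_C, aeval_C, aeval_X]
    have h1 := hv0s _ (by rw [hcomp]; exact hΩ a i)
    rw [hcomp] at h1
    exact h1
  refine ⟨fun j => x j0 * v0 j, ⟨j2, j0, ?_⟩, fun a i => ?_⟩
  · beta_reduce
    rw [hv0j0, mul_zero, zero_mul]
    exact mul_ne_zero (mul_ne_zero hj0 hv0) hj0
  · obtain ⟨d, hd⟩ := hFh i
    have h1 : (fun j => x j + a * (x j0 * v0 j)) = fun j => x j0 * (x j / x j0 + a * v0 j) := by
      funext j
      field_simp
    rw [h1, val_smul hd, hline, mul_zero]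

end Pool.Agent.TH710.NR
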