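import Pool.Agent.TH710.NR.Line
import Pool.Agent.W602.RG.TB

/-!
Infinitely many pointed maps of bounded degree to a variety given by nested sums of few high powers
of linear forms give a line.
-/

set_option autoImplicit false

open FF MvPolynomial Pool.Agent.TH710.ND Pool.Agent.W602.RG Pool.Agent.W603.LV
  Pool.Agent.W603.PV Pool.Agent.W603.CX
open Pool.Agent.W602.GT (lin val IsForm)

namespace Pool.Agent.TH710.NR

variable {k L : Type} [Field k] [Field L] [Algebra k L] {n : ℕ} {ι : Type}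

theorem zero_coe (g : ℕ → Fin (n + 1) → L) (fE : Fin (n + 1) → EE k L)
    (hg : ∀ j, (fE j : Om L) = Om.mk fun m => g m j) (G : MvPolynomial (Fin (n + 1)) k)
    (h : ∀ m, aeval (g m) G = 0) : aeval fE G = 0 := by
  apply Subtype.ext
  rw [aeval_coe g fE hg]
  change _ = Om.mk fun _ => (0 : L)
  congr 1
  funext m
  exact h m

/-- **Rigidity.** -/
theorem line_of_infinite [IsAlgClosed k] [CharZero k] [IsFF k L]
    {F : ι → MvPolynomial (Fin (n + 1)) k}
    {Lf : MvPolynomial (Fin (n + 1)) k → Prop} (hF : ∀ i, TowerOver Lf (F i))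
    (hFh : ∀ i, IsForm (F i)) (hLf : ∀ p, Lf p → IsLin p) (c : Place k L) (x : Fin (n + 1) → k)
    (j0 : Fin (n + 1)) (hj0 : x j0 ≠ 0) (B : ℤ) (M : Set (Fin (n + 1) → L)) (hinf : M.Infinite)
    (hM : ∀ f ∈ M, f j0 = 1 ∧ (∀ i, aeval f (F i) = 0) ∧
      (∀ p, Lf p → val x p = 0 → aeval f p = 0) ∧
      (∀ j, f j = algebraMap k L (x j / x j0) ∨
        0 < c.ord (f j - algebraMap k L (x j / x j0))) ∧ pht k f ≤ B) :
    ∃ v : Fin (n + 1) → k, (∃ j j', v j * x j' ≠ v j' * x j) ∧
      ∀ (a : k) (i : ι), val (fun j => x j + a * v j) (F i) = 0 := by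
  classical
  have hhgt : ∀ f ∈ M, ∀ j, hgt k (f j) ≤ B := by
    intro f hf j
    obtain ⟨h1, h2, h3, h4, h5⟩ := hM f hf
    by_cases h0 : f j = 0
    · have h6 : pht k f ≤ B := h5
      have h7 : hgt k (f j) = 0 := by
        rw [h0]
        have := hgt_algebraic (k := k) (K := L) (f := 0) isAlgebraic_zero
        exact this
      have h8 : 0 ≤ pht k f := by
        have h9 := hgt_le_pht (k := k) f (j := j0) (l := j0) (by rw [h1]; exact one_ne_zero)
          (by rw [h1]; exact one_ne_zero)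
        exact (hgt_nonneg (k := k) _).trans h9
      omega
    · have h6 := hgt_le_pht (k := k) f (j := j) (l := j0) h0 (by rw [h1]; exact one_ne_zero)
      rw [h1, div_one] at h6
      exact h6.trans h5
  -- a coordinate with infinitely many values
  obtain ⟨i1, hi1⟩ : ∃ i1, ((fun f : Fin (n + 1) → L => f i1) '' M).Infinite := by
    by_contra hcon
    push Not at hcon
    apply hinf
    apply (Set.Finite.pi' (t := fun j : Fin (n + 1) => (fun f : Fin (n + 1) → L => f j) '' M)
      (fun j => hcon j)).subset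
    intro f hf j
    exact ⟨f, hf, rfl⟩
  obtain ⟨p, u, θ, hu, hθ, hval⟩ := Pool.Agent.W764.RG.Seq.main k L B _ hi1 (by
    rintro _ ⟨f, hf, rfl⟩
    exact hhgt f hf i1)
  choose g hgM hgu using hu
  have hg1 : ∀ m, g m j0 = 1 := fun m => (hM _ (hgM m)).1
  -- homogeneous coordinates in a finite dimensional space
  obtain ⟨V, hV, hVf⟩ := Pool.Agent.W369.RG.RIE.main k L n B
  have hφ : ∀ m, ∃ φ : L, φ ≠ 0 ∧ ∀ j, φ * g m j ∈ V := fun m =>
    hVf (g m) ⟨j0, by rw [hg1]; exact one_ne_zero⟩ (hM _ (hgM m)).2.2.2.2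
  choose φ hφ0 hφV using hφ
  have hφE : Om.mk φ ∈ EE k L := by
    apply Pool.Agent.W61.RG.GSP.main k L V hV
    intro m
    have := hφV m j0
    rwa [hg1, mul_one] at this
  have hφne : Om.mk φ ≠ 0 := Om.mk_ne_zero hφ0
  have hgE : ∀ j, Om.mk (fun m => g m j) ∈ EE k L := by
    intro j
    have h1 : Om.mk (fun m => φ m * g m j) ∈ EE k L :=
      Pool.Agent.W61.RG.GSP.main k L V hV _ fun m => hφV m j
    have h2 : Om.mk (fun m => g m j) = Om.mk (fun m => φ m * g m j) / Om.mk φ := by
      rw [← Om.mk_mul, mul_div_cancel_left₀ _ hφne]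
    rw [h2]
    exact div_mem h1 hφE
  let fE : Fin (n + 1) → EE k L := fun j => ⟨Om.mk fun m => g m j, hgE j⟩
  have hfE : ∀ j, (fE j : Om L) = Om.mk fun m => g m j := fun j => rfl
  -- the fields
  have hBC : BC k L (Om k) (EE k L) := Pool.Agent.W736.RG.main k L
  have hAC : IsAlgClosed (Om k) := Pool.Agent.W917.RG.GAC.main k
  have hCZ : CharZero (Om k) :=
    charZero_of_injective_algebraMap (algebraMap k (Om k)).injective
  -- the places
  obtain ⟨P, hP, hPv⟩ := Pool.Agent.W374.RG.GPL.main k L c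
  obtain ⟨P1, hP1, hP1v⟩ := Pool.Agent.W374.RG.GPL.main k L p
  refine line_of_family (L := L) (Ω := Om k) hBC hF hFh hLf x fE ?_ j0 hj0 ?_ ?_ P hP ?_ P1 hP1 i1
    (Om.mk θ) (Pool.Agent.W32.RG.GTR.main k θ hθ) ?_
  · intro q hq hq0
    exact zero_coe g fE hfE q fun m => (hM _ (hgM m)).2.2.1 q hq hq0
  · apply Subtype.ext
    rw [hfE]
    change _ = Om.mk fun _ => (1 : L)
    congr 1
    funext m
    exact hg1 m
  · intro i
    exact zero_coe g fE hfE (F i) fun m => (hM _ (hgM m)).2.1 i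
  · intro j
    rw [← sub_eq_zero]
    refine hPv _ (fun m => g m j - algebraMap k L (x j / x j0)) ?_ fun m => ?_
    · change Om.mk (fun m => g m j) - cst L (algebraMap k L (x j / x j0)) = _
      rw [cst_apply, Om.mk_sub]
    · change g m j - algebraMap k L (x j / x j0) = 0 ∨
        0 < c.ord (g m j - algebraMap k L (x j / x j0))
      rw [sub_eq_zero]
      exact (hM _ (hgM m)).2.2.2.1 j
  · rw [← sub_eq_zero]
    refine hP1v _ (fun m => g m i1 - algebraMap k L (θ m)) ?_ fun m => ?_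
    · change Om.mk (fun m => g m i1) - mapOm k L (Om.mk θ) = _
      rw [mapOm_mk, Om.mk_sub]
    · change g m i1 - algebraMap k L (θ m) = 0 ∨ 0 < p.ord (g m i1 - algebraMap k L (θ m))
      have h4 : g m i1 = u m := hgu m
      rw [h4, sub_eq_zero]
      exact hval m

end Pool.Agent.TH710.NR
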