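import Pool.Agent.TH710.NU.Sys

/-!
Relations between nested sums of high powers over a field with a multiplicative set of small
elements, and the system given by a derivation of a constant field extension of a function field.
-/

set_option autoImplicit false

open MvPolynomial Pool.Agent.TH710.ND

namespace Pool.Agent.TH710.NR

variable {F K : Type} [Field F] [Field K] [Algebra F K]

/-- A multiplicative set `S` of small elements, with a notion `Dv e z`: the orders of `z` are
divisible by `e` at the relevant places, such that the classes of a vanishing sum of few such terms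
vanish. -/
structure MSys (F : Type) {K : Type} [Field F] [Field K] [Algebra F K] (S : Set K)
    (Dv : ℕ → K → Prop) : Prop where
  mul : ∀ z w, z ∈ S → w ∈ S → z * w ∈ S
  inv : ∀ z, z ∈ S → z⁻¹ ∈ S
  neg : ∀ z, z ∈ S → -z ∈ S
  cst : ∀ a : F, algebraMap F K a ∈ S
  root : ∀ (z : K) (e : ℕ), 0 < e → z ^ e ∈ S → z ∈ S
  const : ∀ e z, z ∈ S → Dv e z
  pow : ∀ e z, Dv e (z ^ e)
  mulD : ∀ e z w, Dv e z → Dv e w → Dv e (z * w)
  sum : ∀ (e : ℕ), 0 < e → ∀ {J : Type} [Fintype J] (T : J → K), (∀ j, T j ≠ 0 → Dv e (T j)) →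
    ∑ j, T j = 0 → (Fintype.card J - 1) ^ 2 ≤ e → ∀ (j0 : J), T j0 ≠ 0 → ∀ A : Finset J,
      (∀ j, j ∈ A ↔ T j ≠ 0 ∧ T j0 / T j ∈ S) → ∑ j ∈ A, T j = 0

variable {S : Set K} {Dv : ℕ → K → Prop}

theorem MSys.div (h : MSys F S Dv) {z w : K} (hz : z ∈ S) (hw : w ∈ S) : z / w ∈ S := by
  rw [div_eq_mul_inv]
  exact h.mul _ _ hz (h.inv _ hw)

theorem MSys.div_symm (h : MSys F S Dv) {z w : K} (hz : z / w ∈ S) : w / z ∈ S := by
  have := h.inv _ hz
  rwa [inv_div] at this

section spec

variable {M : Type} [CommRing M] [Algebra K M]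

theorem rel_equiv (h : MSys F S Dv) {J : Type} (T : J → K) (hT : ∀ j, T j ≠ 0) :
    Equivalence fun i j : J => T i / T j ∈ S := by
  refine ⟨fun i => ?_, fun {i j} h' => h.div_symm h', fun {i j l} h1 h2 => ?_⟩
  · rw [div_self (hT i), ← map_one (algebraMap F K)]
    exact h.cst 1
  · have h3 := h.mul _ _ h1 h2
    rwa [div_mul_div_cancel₀ (hT j)] at h3

/-- **A vanishing sum is preserved** -/
theorem step (h : MSys F S Dv) {e : ℕ} (he0 : 0 < e) {J : Type} [Fintype J] (T : J → K)
    (T' : J → M) (hTm : ∀ j, T j ≠ 0 → Dv e (T j)) (hsum : ∑ j, T j = 0)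
    (hcard : (Fintype.card J - 1) ^ 2 ≤ e) (h0 : ∀ j, T j = 0 → T' j = 0)
    (hrel : ∀ i j, T i ≠ 0 → T j ≠ 0 → T i / T j ∈ S →
      T' i * algebraMap K M (T j) = algebraMap K M (T i) * T' j) : ∑ j, T' j = 0 := by
  classical
  rw [← sum_sub T T' h0]
  refine class_zero (fun i j : {j // T j ≠ 0} => T i.1 / T j.1 ∈ S)
    (rel_equiv h (fun j : {j // T j ≠ 0} => T j.1) fun j => j.2)
    (fun a : {j // T j ≠ 0} => T a.1)
    (fun a => a.2) (fun a => T' a.1) (fun i j hij => hrel i.1 j.1 i.2 j.2 hij) ?_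
  intro j0 A hA
  have h1 := h.sum e he0 T hTm hsum hcard j0.1 j0.2
    (Finset.univ.filter fun j => T j ≠ 0 ∧ T j0.1 / T j ∈ S) (by simp)
  refine Eq.trans ?_ h1
  refine Finset.sum_nbij (fun a => a.1) (fun a ha => ?_) (fun a _ b _ hab => Subtype.ext hab)
    (fun j hj => ?_) (fun a _ => rfl)
  · rw [Finset.mem_filter]
    exact ⟨Finset.mem_univ _, a.2, (hA a).1 ha⟩
  · rw [Finset.mem_coe, Finset.mem_filter] at hj
    exact ⟨⟨j, hj.2.1⟩, (hA _).2 hj.2.2, rfl⟩

end spec

variable {σ : Type} {Lf : MvPolynomial σ F → Prop} {y : σ → K}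

section spec

variable {M : Type} [CommRing M] [Algebra F M] [Algebra K M] [IsScalarTower F K M]
  {x : σ → M}

/-- what is needed on the leaves -/
structure MEnv (S : Set K) (Lf : MvPolynomial σ F → Prop) (y : σ → K) (x : σ → M) : Prop where
  z : ∀ p, Lf p → aeval y p = 0 → aeval x p = 0
  p : ∀ p q, Lf p → Lf q → aeval y p ≠ 0 → aeval y q ≠ 0 → aeval y p / aeval y q ∈ S →
    aeval x p * algebraMap K M (aeval y q) = algebraMap K M (aeval y p) * aeval x q

omit [IsScalarTower F K M] in
/-- the power terms with small coefficients -/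
theorem pow_step (h : MSys F S Dv) {e : ℕ} (he0 : 0 < e) {J : Type} [Fintype J] (κ : J → K)
    (hκ : ∀ j, κ j ∈ S) (g : J → MvPolynomial σ F)
    (hsum : ∑ j, κ j * aeval y (g j) ^ e = 0) (hcard : (Fintype.card J - 1) ^ 2 ≤ e)
    (h0 : ∀ j, aeval y (g j) = 0 → aeval x (g j) = 0)
    (hrel : ∀ i j, aeval y (g i) ≠ 0 → aeval y (g j) ≠ 0 →
      aeval y (g i) / aeval y (g j) ∈ S → aeval x (g i) * algebraMap K M (aeval y (g j)) =
          algebraMap K M (aeval y (g i)) * aeval x (g j)) :
    ∑ j, algebraMap K M (κ j) * aeval x (g j) ^ e = 0 := by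
  refine step h he0 (fun j => κ j * aeval y (g j) ^ e)
    (fun j => algebraMap K M (κ j) * aeval x (g j) ^ e)
    (fun j _ => h.mulD _ _ _ (h.const _ _ (hκ j)) (h.pow _ _)) hsum hcard ?_ ?_
  · intro j hj
    change κ j * aeval y (g j) ^ e = 0 at hj
    change algebraMap K M (κ j) * aeval x (g j) ^ e = 0
    rcases mul_eq_zero.1 hj with h | h
    · rw [h, map_zero, zero_mul]
    · rw [h0 j (pow_eq_zero_iff he0.ne' |>.1 h), zero_pow he0.ne', mul_zero]
  · intro i j hi hj hij
    obtain ⟨h1, h2⟩ := mul_pow_ne he0 hi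
    obtain ⟨h3, h4⟩ := mul_pow_ne he0 hj
    refine pow_rel (hrel i j h2 h4 (h.root _ e he0 ?_))
    have h5 : (aeval y (g i) / aeval y (g j)) ^ e =
        (κ i * aeval y (g i) ^ e / (κ j * aeval y (g j) ^ e)) * κ j * (κ i)⁻¹ := by
      rw [div_pow]
      field_simp
    rw [h5]
    exact h.mul _ _ (h.mul _ _ hij (hκ j)) (h.inv _ (hκ i))

/-- **Gates.** -/
theorem gate_rel (h : MSys F S Dv) (hE : MEnv S Lf y x) (L : List (ℕ × ℕ)) :
    Pool.Agent.TH710.NU.GoodL L →
    (∀ p, GateL Lf L p → aeval y p = 0 → aeval x p = 0) ∧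
    (∀ p q, GateL Lf L p → GateL Lf L q → aeval y p ≠ 0 → aeval y q ≠ 0 →
        aeval y p / aeval y q ∈ S →
        aeval x p * algebraMap K M (aeval y q) = algebraMap K M (aeval y p) * aeval x q) := by
  induction L with
  | nil =>
    intro _
    exact ⟨fun p hp => hE.z p hp, fun p q hp hq h1 h2 h3 => hE.p p q hp hq h1 h2 h3⟩
  | cons ke L ih =>
    intro hL
    obtain ⟨he0, hks⟩ := hL.head
    obtain ⟨ihz, ihp⟩ := ih hL.tail
    constructor
    · rintro p ⟨a, g, hg, rfl⟩ hp
      rw [aeval_sum_pow] at hp ⊢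
      have h1 := pow_step h (x := x) he0 (fun i => algebraMap F K (a i))
        (fun i => h.cst _) g hp
        (by
          rw [Fintype.card_fin]
          exact (Nat.pow_le_pow_left (by omega) 2).trans hks)
        (fun j hj => ihz (g j) (hg j) hj)
        (fun i j hi hj hl => ihp (g i) (g j) (hg i) (hg j) hi hj hl)
      simp only [← IsScalarTower.algebraMap_apply] at h1
      exact h1
    · rintro p q hp hq hp0 hq0 hl
      obtain ⟨a, g, hg, hpe⟩ := hp
      obtain ⟨b, g', hg', hqe⟩ := hq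
      set lam : K := aeval y p / aeval y q with hlam
      let G : Fin ke.1 ⊕ Fin ke.1 → MvPolynomial σ F := Sum.elim g g'
      have hG : ∀ i, GateL Lf L (G i) := by
        rintro (i | i)
        · exact hg i
        · exact hg' i
      let κ : Fin ke.1 ⊕ Fin ke.1 → K :=
        Sum.elim (fun i => algebraMap F K (a i)) (fun i => -lam * algebraMap F K (b i))
      have hval : ∑ i, κ i * aeval y (G i) ^ ke.2 = aeval y p - lam * aeval y q := by
        rw [hpe, hqe, aeval_sum_pow, aeval_sum_pow, Fintype.sum_sum_type, Finset.mul_sum,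
          sub_eq_add_neg, ← Finset.sum_neg_distrib]
        congr 1
        exact Finset.sum_congr rfl fun i _ => by
          simp only [κ, G, Sum.elim_inr]; ring
      have hval' : ∑ i, algebraMap K M (κ i) * aeval x (G i) ^ ke.2 =
          aeval x p - algebraMap K M lam * aeval x q := by
        rw [hpe, hqe, aeval_sum_pow, aeval_sum_pow, Fintype.sum_sum_type, Finset.mul_sum,
          sub_eq_add_neg, ← Finset.sum_neg_distrib]
        congr 1
        · exact Finset.sum_congr rfl fun i _ => by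
            simp only [κ, G, Sum.elim_inl]
            rw [← IsScalarTower.algebraMap_apply]
        · exact Finset.sum_congr rfl fun i _ => by
            simp only [κ, G, Sum.elim_inr]
            rw [map_mul, map_neg, ← IsScalarTower.algebraMap_apply]
            ring
      have h1 := pow_step h (x := x) he0 κ (by
          rintro (i | i)
          · exact h.cst _
          · exact h.mul _ _ (h.neg _ hl) (h.cst _)) G
        (by rw [hval, hlam, div_mul_cancel₀ _ hq0, sub_self])
        (by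
          rw [Fintype.card_sum, Fintype.card_fin, ← two_mul]
          exact hks)
        (fun j hj => ihz (G j) (hG j) hj)
        (fun i j hi hj hl' => ihp (G i) (G j) (hG i) (hG j) hi hj hl')
      rw [hval', sub_eq_zero, hlam] at h1
      rw [h1, mul_right_comm, ← map_mul, div_mul_cancel₀ _ hq0]

/-- **Equations.** -/
theorem eq_step (h : MSys F S Dv) (hE : MEnv S Lf y x) {L : List (ℕ × ℕ)}
    (hL : Pool.Agent.TH710.NU.GoodL L) {s e : ℕ} (he0 : 0 < e) (hse : (s - 1) ^ 2 ≤ e)
    (c : Fin s → F) (g : Fin s → MvPolynomial σ F) (hg : ∀ i, GateL Lf L (g i))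
    (h0 : aeval y (∑ i, C (c i) * g i ^ e) = 0) : aeval x (∑ i, C (c i) * g i ^ e) = 0 := by
  obtain ⟨ihz, ihp⟩ := gate_rel h hE L hL
  rw [aeval_sum_pow] at h0 ⊢
  have h1 := pow_step h (x := x) he0 (fun i => algebraMap F K (c i))
    (fun i => h.cst _) g h0 (by rw [Fintype.card_fin]; exact hse)
    (fun j hj => ihz (g j) (hg j) hj)
    (fun i j hi hj hl => ihp (g i) (g j) (hg i) (hg j) hi hj hl)
  simp only [← IsScalarTower.algebraMap_apply] at h1
  exact h1

end spec

/-- a nested sum involves only finitely many leaves -/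
theorem gate_leaves {L : List (ℕ × ℕ)} {Lf : MvPolynomial σ F → Prop} :
    ∀ {p : MvPolynomial σ F}, GateL Lf L p → ∃ T : Set (MvPolynomial σ F), T.Finite ∧
      (∀ l ∈ T, Lf l) ∧ ∀ Lf' : MvPolynomial σ F → Prop, (∀ l ∈ T, Lf' l) → GateL Lf' L p := by
  induction L with
  | nil =>
    intro p hp
    exact ⟨{p}, Set.finite_singleton p, fun l hl => by rw [Set.mem_singleton_iff.1 hl]; exact hp,
      fun Lf' h => h p rfl⟩
  | cons ke L ih =>
    rintro p ⟨c, g, hg, rfl⟩
    choose T hT1 hT2 hT3 using fun i => ih (hg i)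
    refine ⟨⋃ i, T i, Set.finite_iUnion hT1, ?_, fun Lf' h => ⟨c, g, fun i => ?_, rfl⟩⟩
    · rintro l hl
      obtain ⟨i, hi⟩ := Set.mem_iUnion.1 hl
      exact hT2 i l hi
    · exact hT3 i Lf' fun l hl => h l (Set.mem_iUnion.2 ⟨i, hl⟩)

end Pool.Agent.TH710.NR
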